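import Mathlib

/-!
# Hadamard matrices without their first three rows need not be diametrically maximal

Let `S` be a skew conference matrix of order `m`. In the Hadamard matrix with blocks
`S + 1, S - 1; S + 1, 1 - S` the product of the four columns `i, k` (in both halves) is `1` except in the four
rows `i, k` (in both halves), where it is `-1`. After normalising, delete three of these four rows. Half
the sum of the four columns, completed by `1` in the fourth row, is at distance at most `n / 2` from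
every column.
-/

set_option autoImplicit false

namespace Pool.Agent.Results.MP_1efffb_co.ThreeRows

open Finset Matrix

/-- The diameter of a set of vectors with respect to the Hamming distance. -/
noncomputable def hdiam {m : ℕ} (A : Set (Fin m → ℤ)) : ℕ :=
  sSup {d : ℕ | ∃ x ∈ A, ∃ y ∈ A, hammingDist x y = d}

/-- The set `A` of vectors is diametrically maximal in `{1,-1}^m`: adding any further vector with
entries `1` or `-1` raises the diameter. -/
def DiamMaximal {m : ℕ} (A : Set (Fin m → ℤ)) : Prop :=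
  ∀ x : Fin m → ℤ, (∀ i, x i = 1 ∨ x i = -1) → x ∉ A → hdiam A < hdiam (insert x A)

/-- Normalised Hadamard matrix of order `n`: entries `1` or `-1`, `H Hᵀ = n I`, and all entries of the
first row and of the first column are `1`. -/
def IsNormalizedHadamard {n : ℕ} (H : Matrix (Fin n) (Fin n) ℤ) : Prop :=
  (∀ i j, H i j = 1 ∨ H i j = -1) ∧ H * Hᵀ = (n : ℤ) • (1 : Matrix (Fin n) (Fin n) ℤ) ∧
    (∀ i j : Fin n, (i : ℕ) = 0 → H i j = 1 ∧ H j i = 1)

/-- The set of columns of the matrix obtained from `H` (of order `r + m`) by deleting its first `r`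
rows. -/
def colSet (r m : ℕ) (H : Matrix (Fin (r + m)) (Fin (r + m)) ℤ) : Set (Fin m → ℤ) :=
  Set.range fun (j : Fin (r + m)) (i : Fin m) => H (Fin.natAdd r i) j

theorem two_mul_dist {m : ℕ} (x y : Fin m → ℤ) (hx : ∀ i, x i = 1 ∨ x i = -1)
    (hy : ∀ i, y i = 1 ∨ y i = -1) : 2 * (hammingDist x y : ℤ) = m - ∑ i, x i * y i := by
  unfold hammingDist
  have h1 : ∀ i, x i * y i = 1 - 2 * (if x i ≠ y i then 1 else 0) := by
    intro i
    rcases hx i with h | h <;> rcases hy i with h' | h' <;> rw [h, h'] <;> norm_num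
  rw [Finset.sum_congr rfl fun i _ => h1 i, Finset.sum_sub_distrib, ← Finset.mul_sum,
    Finset.card_filter]
  push_cast
  simp

theorem hdiam_le {m : ℕ} {A : Set (Fin m → ℤ)} {D : ℕ} (h : ∀ x ∈ A, ∀ y ∈ A, hammingDist x y ≤ D) :
    hdiam A ≤ D := by
  unfold hdiam
  rcases Set.eq_empty_or_nonempty {d : ℕ | ∃ x ∈ A, ∃ y ∈ A, hammingDist x y = d} with h0 | h0
  · rw [h0]; simp
  · apply csSup_le h0
    rintro d ⟨x, hx, y, hy, rfl⟩
    exact h x hx y hy

theorem le_hdiam {m : ℕ} {A : Set (Fin m → ℤ)} {x y : Fin m → ℤ} (hx : x ∈ A) (hy : y ∈ A) :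
    hammingDist x y ≤ hdiam A := by
  unfold hdiam
  apply le_csSup
  · refine ⟨m, ?_⟩
    rintro d ⟨x, _, y, _, rfl⟩
    simpa using hammingDist_le_card_fintype (x := x) (y := y)
  · exact ⟨x, hx, y, hy, rfl⟩

theorem cols_orth {n : ℕ} (hn : 0 < n) (H : Matrix (Fin n) (Fin n) ℤ)
    (h : H * Hᵀ = (n : ℤ) • (1 : Matrix (Fin n) (Fin n) ℤ)) (j j' : Fin n) :
    ∑ i, H i j * H i j' = if j = j' then (n : ℤ) else 0 := by
  set K : Matrix (Fin n) (Fin n) ℚ := H.map (Int.castRingHom ℚ) with hK
  have h1 : K * Kᵀ = (n : ℚ) • (1 : Matrix (Fin n) (Fin n) ℚ) := by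
    have h2 := congrArg (fun M : Matrix (Fin n) (Fin n) ℤ => M.map (Int.castRingHom ℚ)) h
    simp only [Matrix.map_mul] at h2
    have h3 : Kᵀ = Hᵀ.map (Int.castRingHom ℚ) := by
      ext a b; rfl
    rw [h3, hK, h2]
    ext a b
    rw [Matrix.map_apply, Matrix.smul_apply, Matrix.smul_apply, Matrix.one_apply, Matrix.one_apply]
    by_cases hab : a = b
    · subst hab; simp
    · simp [hab]
  have hn' : (n : ℚ) ≠ 0 := by exact_mod_cast hn.ne'
  have h3 : K * ((n : ℚ)⁻¹ • Kᵀ) = 1 := by
    rw [Matrix.mul_smul, h1, smul_smul, inv_mul_cancel₀ hn', one_smul]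
  have h4 := mul_eq_one_comm.1 h3
  rw [Matrix.smul_mul] at h4
  have h5 : Kᵀ * K = (n : ℚ) • (1 : Matrix (Fin n) (Fin n) ℚ) := by
    rw [← h4, smul_smul, mul_inv_cancel₀ hn', one_smul]
  have h6 := congrFun (congrFun h5 j) j'
  rw [Matrix.mul_apply] at h6
  simp only [Matrix.transpose_apply, hK, Matrix.map_apply, Matrix.smul_apply, Matrix.one_apply,
    smul_eq_mul] at h6
  have h7 : ((∑ i, H i j * H i j' : ℤ) : ℚ) = ((if j = j' then (n : ℤ) else 0 : ℤ) : ℚ) := by
    push_cast
    simp only [eq_intCast] at h6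
    rw [h6]
    split_ifs <;> simp
  exact_mod_cast h7

theorem main (m : ℕ) (hm : 5 ≤ m) (H : Matrix (Fin (3 + m)) (Fin (3 + m)) ℤ)
    (hH : IsNormalizedHadamard H) (q : Fin 4 → Fin (3 + m)) (ρ : Fin m)
    (h1 : ∑ t, H (Fin.castAdd m 1) (q t) = 0) (h2 : ∑ t, H (Fin.castAdd m 2) (q t) = 0)
    (hrest : ∀ i : Fin m, i ≠ ρ →
      (∑ t, H (Fin.natAdd 3 i) (q t) = 2 ∨ ∑ t, H (Fin.natAdd 3 i) (q t) = -2))
    (hρ : ∑ t, H (Fin.natAdd 3 ρ) (q t) = 0) (hq : Function.Injective q) :
    ¬ DiamMaximal (colSet 3 m H) := by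
  intro hmax
  obtain ⟨hent, hHH, hnorm⟩ := hH
  have horth := cols_orth (by omega) H hHH
  have hrow0 : ∀ j, H (Fin.castAdd m 0) j = 1 := fun j => (hnorm (Fin.castAdd m 0) j rfl).1
  -- inner products of the truncated columns
  have hin : ∀ j j', ∑ i : Fin m, H (Fin.natAdd 3 i) j * H (Fin.natAdd 3 i) j'
      = (if j = j' then ((3 + m : ℕ) : ℤ) else 0) - 1 -
        H (Fin.castAdd m 1) j * H (Fin.castAdd m 1) j' -
        H (Fin.castAdd m 2) j * H (Fin.castAdd m 2) j' := by
    intro j j'
    have h := horth j j'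
    rw [Fin.sum_univ_add, Fin.sum_univ_three, hrow0, hrow0] at h
    linarith
  -- the new point
  set x : Fin m → ℤ := fun i => if i = ρ then 1 else (∑ t, H (Fin.natAdd 3 i) (q t)) / 2 with hx
  have hx2 : ∀ i, 2 * x i = ∑ t, H (Fin.natAdd 3 i) (q t) + if i = ρ then 2 else 0 := by
    intro i
    rw [hx]
    by_cases hi : i = ρ
    · subst hi; simp [hρ]
    · simp only [hi, if_false, add_zero]
      rcases hrest i hi with h | h <;> rw [h] <;> norm_num
  have hxpm : ∀ i, x i = 1 ∨ x i = -1 := by
    intro i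
    rw [hx]
    by_cases hi : i = ρ
    · simp [hi]
    · simp only [hi, if_false]
      rcases hrest i hi with h | h <;> rw [h] <;> norm_num
  have hxc : ∀ j, 2 * ∑ i : Fin m, x i * H (Fin.natAdd 3 i) j
      = (∑ t, if q t = j then ((3 + m : ℕ) : ℤ) else 0) - 4 + 2 * H (Fin.natAdd 3 ρ) j := by
    intro j
    have e1 : 2 * ∑ i : Fin m, x i * H (Fin.natAdd 3 i) j
        = ∑ t, ∑ i : Fin m, H (Fin.natAdd 3 i) (q t) * H (Fin.natAdd 3 i) j
          + 2 * H (Fin.natAdd 3 ρ) j := by
      rw [Finset.mul_sum, Finset.sum_comm]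
      have : ∀ i : Fin m, 2 * (x i * H (Fin.natAdd 3 i) j)
          = ∑ t, H (Fin.natAdd 3 i) (q t) * H (Fin.natAdd 3 i) j
            + if i = ρ then 2 * H (Fin.natAdd 3 ρ) j else 0 := by
        intro i
        rw [← mul_assoc, hx2 i, add_mul, Finset.sum_mul]
        congr 1
        by_cases hi : i = ρ
        · subst hi; simp
        · simp [hi]
      rw [Finset.sum_congr rfl fun i _ => this i, Finset.sum_add_distrib]
      simp
    rw [e1]
    simp only [hin, Finset.sum_sub_distrib, ← Finset.sum_mul, h1, h2]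
    simp
  -- distances
  have hdx : ∀ j, (hammingDist x (fun i => H (Fin.natAdd 3 i) j) : ℤ) * 2 ≤ 3 + m := by
    intro j
    have e1 := two_mul_dist x (fun i => H (Fin.natAdd 3 i) j) hxpm (fun i => hent _ _)
    have e2 := hxc j
    have e3 : (0 : ℤ) ≤ ∑ t, if q t = j then ((3 + m : ℕ) : ℤ) else 0 :=
      Finset.sum_nonneg fun t _ => by split_ifs <;> positivity
    have e4 : -1 ≤ H (Fin.natAdd 3 ρ) j := by
      rcases hent (Fin.natAdd 3 ρ) j with h | h <;> rw [h]; norm_num
    linarith
  have hdc : ∀ j j', (hammingDist (fun i : Fin m => H (Fin.natAdd 3 i) j)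
      (fun i => H (Fin.natAdd 3 i) j') : ℤ) * 2 ≤ 3 + m := by
    intro j j'
    have e1 := two_mul_dist (fun i : Fin m => H (Fin.natAdd 3 i) j)
      (fun i => H (Fin.natAdd 3 i) j') (fun i => hent _ _) (fun i => hent _ _)
    have e2 := hin j j'
    have e3 : (0 : ℤ) ≤ if j = j' then ((3 + m : ℕ) : ℤ) else 0 := by split_ifs <;> positivity
    have e4 : H (Fin.castAdd m 1) j * H (Fin.castAdd m 1) j' ≤ 1 := by
      rcases hent (Fin.castAdd m 1) j with h | h <;> rcases hent (Fin.castAdd m 1) j' with h' | h' <;>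
        rw [h, h'] <;> norm_num
    have e5 : H (Fin.castAdd m 2) j * H (Fin.castAdd m 2) j' ≤ 1 := by
      rcases hent (Fin.castAdd m 2) j with h | h <;> rcases hent (Fin.castAdd m 2) j' with h' | h' <;>
        rw [h, h'] <;> norm_num
    linarith
  -- two columns at the largest distance
  obtain ⟨j, j', hjj, hpat⟩ : ∃ j j' : Fin (3 + m), j ≠ j' ∧
      (H (Fin.castAdd m 1) j = H (Fin.castAdd m 1) j' ∧
        H (Fin.castAdd m 2) j = H (Fin.castAdd m 2) j') := by
    have hc : Fintype.card (Bool × Bool) < Fintype.card (Fin (3 + m)) := by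
      simp; omega
    obtain ⟨j, j', hne, heq⟩ := Fintype.exists_ne_map_eq_of_card_lt
      (fun j : Fin (3 + m) => (decide (H (Fin.castAdd m 1) j = 1), decide (H (Fin.castAdd m 2) j = 1))) hc
    refine ⟨j, j', hne, ?_, ?_⟩
    · have h := congrArg Prod.fst heq
      simp only [decide_eq_decide] at h
      rcases hent (Fin.castAdd m 1) j with h3 | h3 <;> rcases hent (Fin.castAdd m 1) j' with h4 | h4 <;>
        simp_all
    · have h := congrArg Prod.snd heq
      simp only [decide_eq_decide] at h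
      rcases hent (Fin.castAdd m 2) j with h3 | h3 <;> rcases hent (Fin.castAdd m 2) j' with h4 | h4 <;>
        simp_all
  have hfar : (hammingDist (fun i : Fin m => H (Fin.natAdd 3 i) j)
      (fun i => H (Fin.natAdd 3 i) j') : ℤ) * 2 = 3 + m := by
    have e1 := two_mul_dist (fun i : Fin m => H (Fin.natAdd 3 i) j)
      (fun i => H (Fin.natAdd 3 i) j') (fun i => hent _ _) (fun i => hent _ _)
    have e2 := hin j j'
    rw [if_neg hjj, hpat.1, hpat.2] at e2
    have e4 : H (Fin.castAdd m 1) j' * H (Fin.castAdd m 1) j' = 1 := by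
      rcases hent (Fin.castAdd m 1) j' with h' | h' <;> rw [h'] <;> norm_num
    have e5 : H (Fin.castAdd m 2) j' * H (Fin.castAdd m 2) j' = 1 := by
      rcases hent (Fin.castAdd m 2) j' with h' | h' <;> rw [h'] <;> norm_num
    rw [e4, e5] at e2
    linarith
  set D : ℕ := hammingDist (fun i : Fin m => H (Fin.natAdd 3 i) j)
      (fun i => H (Fin.natAdd 3 i) j') with hD
  have hlow : D ≤ hdiam (colSet 3 m H) := le_hdiam ⟨j, rfl⟩ ⟨j', rfl⟩
  -- x is not a column
  have hxnot : x ∉ colSet 3 m H := by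
    rintro ⟨j, hj⟩
    have hj' : (fun i : Fin m => H (Fin.natAdd 3 i) j) = x := hj
    have e1 := hxc j
    have e2 : ∑ i : Fin m, x i * H (Fin.natAdd 3 i) j = m := by
      rw [← hj']
      have : ∀ i : Fin m, H (Fin.natAdd 3 i) j * H (Fin.natAdd 3 i) j = 1 := by
        intro i
        rcases hent (Fin.natAdd 3 i) j with h | h <;> rw [h] <;> norm_num
      simp [this]
    have e3 : (∑ t, if q t = j then ((3 + m : ℕ) : ℤ) else 0) ≤ (3 + m : ℕ) := by
      by_cases hex : ∃ t, q t = j
      · obtain ⟨t, ht⟩ := hex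
        rw [Finset.sum_eq_single t]
        · rw [if_pos ht]
        · intro s _ hs
          rw [if_neg]
          intro h
          exact hs (hq (h.trans ht.symm))
        · intro h; exact absurd (Finset.mem_univ t) h
      · push Not at hex
        rw [Finset.sum_eq_zero]
        · positivity
        · intro t _; rw [if_neg (hex t)]
    have e4 : H (Fin.natAdd 3 ρ) j ≤ 1 := by
      rcases hent (Fin.natAdd 3 ρ) j with h | h <;> rw [h]; norm_num
    rw [e2] at e1
    push_cast at e1 e3
    omega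
  have hup : hdiam (insert x (colSet 3 m H)) ≤ D := by
    apply hdiam_le
    intro y hy z hz
    rw [Set.mem_insert_iff] at hy hz
    rcases hy with rfl | ⟨j₁, rfl⟩ <;> rcases hz with rfl | ⟨j₂, rfl⟩
    · simp
    · have := hdx j₂
      have h3 : (hammingDist x (fun i => H (Fin.natAdd 3 i) j₂) : ℤ) * 2 ≤ D * 2 := by
        rw [hfar]; exact this
      have h4 : (hammingDist x (fun i => H (Fin.natAdd 3 i) j₂) : ℤ) ≤ D := by linarith
      exact_mod_cast h4
    · rw [hammingDist_comm]
      have := hdx j₁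
      have h3 : (hammingDist x (fun i => H (Fin.natAdd 3 i) j₁) : ℤ) * 2 ≤ D * 2 := by
        rw [hfar]; exact this
      have h4 : (hammingDist x (fun i => H (Fin.natAdd 3 i) j₁) : ℤ) ≤ D := by linarith
      exact_mod_cast h4
    · have := hdc j₁ j₂
      have h3 : (hammingDist (fun i : Fin m => H (Fin.natAdd 3 i) j₁)
          (fun i => H (Fin.natAdd 3 i) j₂) : ℤ) * 2 ≤ D * 2 := by
        rw [hfar]; exact this
      have h4 : (hammingDist (fun i : Fin m => H (Fin.natAdd 3 i) j₁)
          (fun i => H (Fin.natAdd 3 i) j₂) : ℤ) ≤ D := by linarith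
      exact_mod_cast h4
  have := hmax x hxpm hxnot
  omega

/-- Skew conference matrices. -/
structure Skew {ι : Type} [Fintype ι] [DecidableEq ι] (S : ι → ι → ℤ) : Prop where
  skew : ∀ i j, S j i = - S i j
  off : ∀ i j, i ≠ j → S i j = 1 ∨ S i j = -1
  orth : ∀ i j, ∑ k, S i k * S j k = if i = j then (Fintype.card ι : ℤ) - 1 else 0

theorem Skew.diag {ι : Type} [Fintype ι] [DecidableEq ι] {S : ι → ι → ℤ} (h : Skew S) (i : ι) :
    S i i = 0 := by
  have := h.skew i i
  linarith

/-- The Kronecker delta. -/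
def dl {ι : Type} [DecidableEq ι] (i j : ι) : ℤ := if i = j then 1 else 0

theorem dl_comm {ι : Type} [DecidableEq ι] (i j : ι) : dl i j = dl j i := by
  unfold dl; simp [eq_comm]

theorem sum_dl {ι : Type} [Fintype ι] [DecidableEq ι] (i : ι) (f : ι → ℤ) :
    ∑ k, f k * dl i k = f i := by
  unfold dl; simp

theorem sum_dl' {ι : Type} [Fintype ι] [DecidableEq ι] (i : ι) (f : ι → ℤ) :
    ∑ k, dl i k * f k = f i := by
  unfold dl; simp

/-- The doubled skew conference matrix. -/
def dbl {ι : Type} [DecidableEq ι] (S : ι → ι → ℤ) : ι ⊕ ι → ι ⊕ ι → ℤ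
  | Sum.inl i, Sum.inl j => S i j
  | Sum.inl i, Sum.inr j => S i j + dl i j
  | Sum.inr i, Sum.inl j => S i j - dl i j
  | Sum.inr i, Sum.inr j => - S i j

theorem sq_expand {ι : Type} [Fintype ι] [DecidableEq ι] (S : ι → ι → ℤ) (a b c d : ℤ) (i j : ι) :
    ∑ k, (a * S i k + b * dl i k) * (c * S j k + d * dl j k)
      = a * c * ∑ k, S i k * S j k + a * d * S i j + b * c * S j i + b * d * dl i j := by
  have : ∀ k, (a * S i k + b * dl i k) * (c * S j k + d * dl j k)
      = a * c * (S i k * S j k) + a * d * (S i k * dl j k) + b * c * (dl i k * S j k)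
        + b * d * (dl j k * dl i k) := by
    intro k; ring
  simp only [this, Finset.sum_add_distrib, ← Finset.mul_sum, sum_dl, sum_dl']
  rw [dl_comm j i]

theorem Skew.dbl {ι : Type} [Fintype ι] [DecidableEq ι] {S : ι → ι → ℤ} (h : Skew S) :
    Skew (dbl S) := by
  constructor
  · rintro (i | i) (j | j)
    · exact h.skew i j
    · change S j i - dl j i = - (S i j + dl i j)
      rw [h.skew i j, dl_comm]; ring
    · change S j i + dl j i = - (S i j - dl i j)
      rw [h.skew i j, dl_comm]; ring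
    · change - S j i = - - S i j
      rw [h.skew i j]
  · rintro (i | i) (j | j) hij
    · exact h.off i j (fun e => hij (by rw [e]))
    · change S i j + dl i j = 1 ∨ S i j + dl i j = -1
      by_cases e : i = j
      · subst e; rw [h.diag]; simp [dl]
      · rcases h.off i j e with h1 | h1 <;> rw [h1] <;> simp [dl, e]
    · change S i j - dl i j = 1 ∨ S i j - dl i j = -1
      by_cases e : i = j
      · subst e; rw [h.diag]; simp [dl]
      · rcases h.off i j e with h1 | h1 <;> rw [h1] <;> simp [dl, e]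
    · change - S i j = 1 ∨ - S i j = -1
      rcases h.off i j (fun e => hij (by rw [e])) with h1 | h1 <;> rw [h1] <;> simp
  · rintro (i | i) (j | j)
    · rw [Fintype.sum_sum_type]
      change ∑ k, S i k * S j k + ∑ k, (S i k + dl i k) * (S j k + dl j k) = _
      have e := sq_expand S 1 1 1 1 i j
      simp only [one_mul] at e
      rw [e, h.orth, h.skew i j]
      by_cases hij : i = j
      · subst hij; simp [dl]; ring
      · simp [dl, hij]
    · rw [Fintype.sum_sum_type]
      change ∑ k, S i k * (S j k - dl j k) + ∑ k, (S i k + dl i k) * (- S j k) = _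
      have e := sq_expand S 1 0 1 (-1) i j
      have e' := sq_expand S 1 1 (-1) 0 i j
      simp only [one_mul, zero_mul, add_zero, neg_one_mul, ← sub_eq_add_neg] at e e'
      rw [e, e', h.skew i j]
      simp
    · rw [Fintype.sum_sum_type]
      change ∑ k, (S i k - dl i k) * S j k + ∑ k, (- S i k) * (S j k + dl j k) = _
      have e := sq_expand S 1 (-1) 1 0 i j
      have e' := sq_expand S (-1) 0 1 1 i j
      simp only [one_mul, zero_mul, add_zero, neg_one_mul, ← sub_eq_add_neg] at e e'
      rw [e, e', h.skew i j]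
      simp
    · rw [Fintype.sum_sum_type]
      change ∑ k, (S i k - dl i k) * (S j k - dl j k) + ∑ k, (- S i k) * (- S j k) = _
      have e := sq_expand S 1 (-1) 1 (-1) i j
      simp only [one_mul, neg_one_mul, ← sub_eq_add_neg] at e
      simp only [neg_mul_neg]
      rw [e, h.orth, h.skew i j]
      by_cases hij : i = j
      · subst hij; simp [dl]; ring
      · simp [dl, hij]

/-- The Hadamard matrix built from a skew conference matrix. -/
def hm {ι : Type} [DecidableEq ι] (S : ι → ι → ℤ) : ι ⊕ ι → ι ⊕ ι → ℤ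
  | Sum.inl i, Sum.inl j => S i j + dl i j
  | Sum.inl i, Sum.inr j => S i j - dl i j
  | Sum.inr i, Sum.inl j => S i j + dl i j
  | Sum.inr i, Sum.inr j => dl i j - S i j

theorem hm_ent {ι : Type} [Fintype ι] [DecidableEq ι] {S : ι → ι → ℤ} (h : Skew S) (a b : ι ⊕ ι) :
    hm S a b = 1 ∨ hm S a b = -1 := by
  rcases a with i | i <;> rcases b with j | j
  · change S i j + dl i j = 1 ∨ S i j + dl i j = -1
    by_cases e : i = j
    · subst e; rw [h.diag]; simp [dl]
    · rcases h.off i j e with h1 | h1 <;> rw [h1] <;> simp [dl, e]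
  · change S i j - dl i j = 1 ∨ S i j - dl i j = -1
    by_cases e : i = j
    · subst e; rw [h.diag]; simp [dl]
    · rcases h.off i j e with h1 | h1 <;> rw [h1] <;> simp [dl, e]
  · change S i j + dl i j = 1 ∨ S i j + dl i j = -1
    by_cases e : i = j
    · subst e; rw [h.diag]; simp [dl]
    · rcases h.off i j e with h1 | h1 <;> rw [h1] <;> simp [dl, e]
  · change dl i j - S i j = 1 ∨ dl i j - S i j = -1
    by_cases e : i = j
    · subst e; rw [h.diag]; simp [dl]
    · rcases h.off i j e with h1 | h1 <;> rw [h1] <;> simp [dl, e]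

theorem hm_orth {ι : Type} [Fintype ι] [DecidableEq ι] {S : ι → ι → ℤ} (h : Skew S) (a b : ι ⊕ ι) :
    ∑ k, hm S a k * hm S b k = if a = b then 2 * (Fintype.card ι : ℤ) else 0 := by
  rcases a with i | i <;> rcases b with j | j
  · rw [Fintype.sum_sum_type]
    change ∑ k, (S i k + dl i k) * (S j k + dl j k) + ∑ k, (S i k - dl i k) * (S j k - dl j k) = _
    have e := sq_expand S 1 1 1 1 i j
    have e' := sq_expand S 1 (-1) 1 (-1) i j
    simp only [one_mul, neg_one_mul, ← sub_eq_add_neg] at e e'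
    rw [e, e', h.orth, h.skew i j]
    by_cases hij : i = j
    · subst hij; simp [dl]; ring
    · simp [dl, hij]
  · rw [Fintype.sum_sum_type]
    change ∑ k, (S i k + dl i k) * (S j k + dl j k) + ∑ k, (S i k - dl i k) * (dl j k - S j k) = _
    have e := sq_expand S 1 1 1 1 i j
    have e' := sq_expand S 1 (-1) (-1) 1 i j
    simp only [one_mul, neg_one_mul, ← sub_eq_add_neg, neg_add_eq_sub] at e e'
    rw [e, e', h.skew i j]
    simp; ring
  · rw [Fintype.sum_sum_type]
    change ∑ k, (S i k + dl i k) * (S j k + dl j k) + ∑ k, (dl i k - S i k) * (S j k - dl j k) = _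
    have e := sq_expand S 1 1 1 1 i j
    have e' := sq_expand S (-1) 1 1 (-1) i j
    simp only [one_mul, neg_one_mul, ← sub_eq_add_neg, neg_add_eq_sub] at e e'
    rw [e, e', h.skew i j]
    simp; ring
  · rw [Fintype.sum_sum_type]
    change ∑ k, (S i k + dl i k) * (S j k + dl j k) + ∑ k, (dl i k - S i k) * (dl j k - S j k) = _
    have e := sq_expand S 1 1 1 1 i j
    have e' := sq_expand S (-1) 1 (-1) 1 i j
    simp only [one_mul, neg_one_mul, neg_add_eq_sub] at e e'
    rw [e, e', h.orth, h.skew i j]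
    by_cases hij : i = j
    · subst hij; simp [dl]; ring
    · simp [dl, hij]

/-- Skew conference matrices of all orders `2 ^ k`. -/
theorem exists_skew (k : ℕ) : ∃ (ι : Type) (_ : Fintype ι) (_ : DecidableEq ι) (S : ι → ι → ℤ),
    Fintype.card ι = 2 ^ k ∧ Skew S := by
  induction k with
  | zero =>
    refine ⟨Unit, inferInstance, inferInstance, fun _ _ => 0, by simp, ?_⟩
    constructor
    · intro i j; simp
    · intro i j h; exact absurd (Subsingleton.elim i j) h
    · intro i j; simp
  | succ k ih =>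
    obtain ⟨ι, _, _, S, hc, hS⟩ := ih
    refine ⟨ι ⊕ ι, inferInstance, inferInstance, dbl S, ?_, hS.dbl⟩
    rw [Fintype.card_sum, hc, pow_succ]; ring

/-- An enumeration starting with three prescribed elements. -/
theorem exists_enum {κ : Type} [Fintype κ] [DecidableEq κ] (m : ℕ) (hc : Fintype.card κ = 3 + m)
    (a b c : κ) (hab : a ≠ b) (hac : a ≠ c) (hbc : b ≠ c) :
    ∃ e : Fin (3 + m) ≃ κ, e (Fin.castAdd m 0) = a ∧ e (Fin.castAdd m 1) = b ∧
      e (Fin.castAdd m 2) = c := by
  let s : Finset (Fin (3 + m)) := {Fin.castAdd m 0, Fin.castAdd m 1, Fin.castAdd m 2}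
  let f : Fin (3 + m) → κ := fun i => if i = Fin.castAdd m 0 then a else
    if i = Fin.castAdd m 1 then b else c
  have h10 : (Fin.castAdd m 1 : Fin (3 + m)) ≠ Fin.castAdd m 0 := by
    intro h; have := congrArg Fin.val h; simp at this
  have h20 : (Fin.castAdd m 2 : Fin (3 + m)) ≠ Fin.castAdd m 0 := by
    intro h; have := congrArg Fin.val h; simp at this
  have h21 : (Fin.castAdd m 2 : Fin (3 + m)) ≠ Fin.castAdd m 1 := by
    intro h; have := congrArg Fin.val h; simp at this
  have hf0 : f (Fin.castAdd m 0) = a := by simp only [f, if_true]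
  have hf1 : f (Fin.castAdd m 1) = b := by simp only [f, if_neg h10, if_true]
  have hf2 : f (Fin.castAdd m 2) = c := by simp only [f, if_neg h20, if_neg h21]
  have hinj : Set.InjOn f s := by
    intro x hx y hy hxy
    simp only [s, Finset.coe_insert, Finset.coe_singleton, Set.mem_insert_iff,
      Set.mem_singleton_iff] at hx hy
    rcases hx with rfl | rfl | rfl <;> rcases hy with rfl | rfl | rfl <;>
      simp only [hf0, hf1, hf2] at hxy <;> first | rfl | exact absurd hxy ‹_› |
        exact absurd hxy.symm ‹_›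
  obtain ⟨g, hg⟩ := Finset.exists_equiv_extend_of_card_eq (t := (Finset.univ : Finset κ))
    (by simp [hc]) (s := s) (f := f) (Finset.subset_univ _) hinj
  refine ⟨g.trans (Equiv.subtypeUnivEquiv (fun x => Finset.mem_univ x)), ?_, ?_, ?_⟩
  · exact (hg _ (by simp [s])).trans hf0
  · exact (hg _ (by simp [s])).trans hf1
  · exact (hg _ (by simp [s])).trans hf2

theorem family {ι : Type} [Fintype ι] [DecidableEq ι] {S : ι → ι → ℤ} (hS : Skew S) (m : ℕ)
    (hc : Fintype.card (ι ⊕ ι) = 3 + m) (hm5 : 5 ≤ m) (i0 i1 : ι) (hi : i0 ≠ i1) :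
    ∃ H : Matrix (Fin (3 + m)) (Fin (3 + m)) ℤ, IsNormalizedHadamard H ∧
      ¬ DiamMaximal (colSet 3 m H) := by
  obtain ⟨e, he0, he1, he2⟩ := exists_enum m hc (Sum.inl i0) (Sum.inr i0) (Sum.inl i1)
    (by simp) (by simpa using hi) (by simp)
  have h00 : hm S (Sum.inl i0) (Sum.inl i0) = 1 := by
    change S i0 i0 + dl i0 i0 = 1
    rw [hS.diag]; simp [dl]
  have hsq : ∀ a b, hm S a b * hm S a b = 1 := by
    intro a b
    rcases hm_ent hS a b with h | h <;> rw [h] <;> norm_num
  set H : Matrix (Fin (3 + m)) (Fin (3 + m)) ℤ := fun i j =>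
    hm S (e i) (e j) * hm S (Sum.inl i0) (e j) * hm S (e i) (Sum.inl i0) with hH
  have hHad : IsNormalizedHadamard H := by
    refine ⟨?_, ?_, ?_⟩
    · intro i j
      rw [hH]
      rcases hm_ent hS (e i) (e j) with h1 | h1 <;>
      rcases hm_ent hS (Sum.inl i0) (e j) with h2 | h2 <;>
      rcases hm_ent hS (e i) (Sum.inl i0) with h3 | h3 <;>
      simp [h1, h2, h3]
    · ext i j
      rw [Matrix.mul_apply, Matrix.smul_apply, Matrix.one_apply]
      have h1 : ∀ k, H i k * Hᵀ k j = (hm S (e i) (Sum.inl i0) * hm S (e j) (Sum.inl i0)) *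
          (hm S (e i) (e k) * hm S (e j) (e k)) := by
        intro k
        have : H i k * Hᵀ k j = (hm S (e i) (Sum.inl i0) * hm S (e j) (Sum.inl i0)) *
          (hm S (e i) (e k) * hm S (e j) (e k)) *
            (hm S (Sum.inl i0) (e k) * hm S (Sum.inl i0) (e k)) := by
          rw [Matrix.transpose_apply, hH]; ring
        rw [this, hsq, mul_one]
      rw [Finset.sum_congr rfl fun k _ => h1 k, ← Finset.mul_sum,
        Equiv.sum_comp e (fun k => hm S (e i) k * hm S (e j) k), hm_orth hS]
      by_cases hij : i = j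
      · subst hij
        rw [if_pos rfl, if_pos rfl, hsq]
        rw [Fintype.card_sum] at hc
        have : (Fintype.card ι : ℤ) + Fintype.card ι = ((3 + m : ℕ) : ℤ) := by exact_mod_cast hc
        rw [← this]; simp; ring
      · rw [if_neg (fun h => hij (e.injective h)), if_neg hij]; simp
    · intro i j hi0
      have : i = Fin.castAdd m 0 := by
        apply Fin.ext; simpa using hi0
      subst this
      constructor
      · rw [hH]
        simp only [he0, h00, mul_one, hsq]
      · rw [hH]
        simp only [he0, h00, mul_one, hsq]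
  refine ⟨H, hHad, ?_⟩
  -- the four columns
  set q : Fin 4 → Fin (3 + m) := ![e.symm (Sum.inl i0), e.symm (Sum.inr i0), e.symm (Sum.inl i1),
    e.symm (Sum.inr i1)] with hq
  have hsum : ∀ i, ∑ t, H i (q t) = hm S (e i) (Sum.inl i0) *
      (hm S (e i) (Sum.inl i0) * hm S (Sum.inl i0) (Sum.inl i0)
        + hm S (e i) (Sum.inr i0) * hm S (Sum.inl i0) (Sum.inr i0)
        + hm S (e i) (Sum.inl i1) * hm S (Sum.inl i0) (Sum.inl i1)
        + hm S (e i) (Sum.inr i1) * hm S (Sum.inl i0) (Sum.inr i1)) := by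
    intro i
    rw [Fin.sum_univ_four, hq, hH]
    simp only [Matrix.cons_val, Equiv.apply_symm_apply]
    ring
  -- the exceptional position outside the first three rows
  obtain ⟨ρ, hρ⟩ : ∃ ρ : Fin m, e (Fin.natAdd 3 ρ) = Sum.inr i1 := by
    obtain ⟨p, hp⟩ := e.surjective (Sum.inr i1)
    rcases Nat.lt_or_ge (p : ℕ) 3 with h | h
    · exfalso
      have : p = Fin.castAdd m 0 ∨ p = Fin.castAdd m 1 ∨ p = Fin.castAdd m 2 := by
        have : (p : ℕ) = 0 ∨ (p : ℕ) = 1 ∨ (p : ℕ) = 2 := by omega
        rcases this with h | h | h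
        · left; exact Fin.ext (by simpa using h)
        · right; left; exact Fin.ext (by simpa using h)
        · right; right; exact Fin.ext (by simpa using h)
      rcases this with rfl | rfl | rfl
      · rw [he0] at hp; simp at hp
      · rw [he1] at hp; simp at hp; exact hi hp
      · rw [he2] at hp; simp at hp
    · refine ⟨⟨p - 3, by omega⟩, ?_⟩
      rw [← hp]
      congr 1
      apply Fin.ext
      simp; omega
  have hS10 : S i1 i0 = - S i0 i1 := hS.skew i0 i1
  have hd : S i0 i0 = 0 := hS.diag i0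
  have hd1 : S i1 i1 = 0 := hS.diag i1
  have hd01 : dl i0 i1 = 0 := by simp [dl, hi]
  have hd10 : dl i1 i0 = 0 := by simp [dl, Ne.symm hi]
  have hd00 : dl i0 i0 = 1 := by simp [dl]
  have hd11 : dl i1 i1 = 1 := by simp [dl]
  apply main m hm5 H hHad q ρ
  · rw [hsum, he1]
    simp only [hm, hd, hd00, hd01]
    ring
  · rw [hsum, he2]
    simp only [hm, hd, hd1, hd00, hd01, hd10, hd11, hS10]
    ring
  · intro i hi'
    have hne : e (Fin.natAdd 3 i) ≠ Sum.inl i0 ∧ e (Fin.natAdd 3 i) ≠ Sum.inr i0 ∧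
        e (Fin.natAdd 3 i) ≠ Sum.inl i1 ∧ e (Fin.natAdd 3 i) ≠ Sum.inr i1 := by
      refine ⟨?_, ?_, ?_, ?_⟩
      · rw [← he0]; intro h
        have := congrArg Fin.val (e.injective h); simp at this
      · rw [← he1]; intro h
        have := congrArg Fin.val (e.injective h); simp at this; omega
      · rw [← he2]; intro h
        have := congrArg Fin.val (e.injective h); simp at this; omega
      · rw [← hρ]; intro h
        have := congrArg Fin.val (e.injective h)
        apply hi'; apply Fin.ext; simpa using this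
    rw [hsum]
    obtain ⟨n1, n2, n3, n4⟩ := hne
    rcases hx : e (Fin.natAdd 3 i) with k | k
    · rw [hx] at n1 n3
      have hk0 : k ≠ i0 := fun h => n1 (by rw [h])
      have hk1 : k ≠ i1 := fun h => n3 (by rw [h])
      have d0 : dl k i0 = 0 := by simp [dl, hk0]
      have d1 : dl k i1 = 0 := by simp [dl, hk1]
      simp only [hm, hd, hd00, hd01, d0, d1]
      rcases hS.off k i0 hk0 with a | a <;> rcases hS.off k i1 hk1 with b | b <;>
        rcases hS.off i0 i1 hi with c | c <;> rw [a, b, c] <;> norm_num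
    · rw [hx] at n2 n4
      have hk0 : k ≠ i0 := fun h => n2 (by rw [h])
      have hk1 : k ≠ i1 := fun h => n4 (by rw [h])
      have d0 : dl k i0 = 0 := by simp [dl, hk0]
      have d1 : dl k i1 = 0 := by simp [dl, hk1]
      simp only [hm, hd, hd00, hd01, d0, d1]
      rcases hS.off k i0 hk0 with a | a <;> rcases hS.off k i1 hk1 with b | b <;>
        rcases hS.off i0 i1 hi with c | c <;> rw [a, b, c] <;> norm_num
  · rw [hsum, hρ]
    simp only [hm, hd, hd1, hd00, hd01, hd10, hd11, hS10]
    ring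
  · intro a b hab
    have : e (q a) = e (q b) := by rw [hab]
    rw [hq] at this
    fin_cases a <;> fin_cases b <;> simp at this <;> first | rfl | exact absurd this hi |
      exact absurd this.symm hi

/-- For every `n₀` there is a normalised Hadamard matrix `H` of order `n = 3 + m ≥ n₀` for which the
set of columns of the matrix obtained by deleting the first three rows is not diametrically maximal. -/
theorem result (n₀ : ℕ) : ∃ m : ℕ, n₀ ≤ 3 + m ∧
    ∃ H : Matrix (Fin (3 + m)) (Fin (3 + m)) ℤ, IsNormalizedHadamard H ∧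
      ¬ DiamMaximal (colSet 3 m H) := by
  obtain ⟨ι, _, _, S, hc, hS⟩ := exists_skew (n₀ + 2)
  have h1 : n₀ < 2 ^ n₀ := Nat.lt_two_pow_self
  have h2 : 2 ^ (n₀ + 2) = 4 * 2 ^ n₀ := by rw [pow_add]; ring
  have hcard : Fintype.card (ι ⊕ ι) = 3 + (2 * 2 ^ (n₀ + 2) - 3) := by
    rw [Fintype.card_sum, hc]; omega
  obtain ⟨i0, i1, hi⟩ : ∃ i0 i1 : ι, i0 ≠ i1 := by
    have : 1 < Fintype.card ι := by rw [hc]; omega
    exact Fintype.exists_pair_of_one_lt_card this
  refine ⟨2 * 2 ^ (n₀ + 2) - 3, by omega, ?_⟩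
  exact family hS _ hcard (by omega) i0 i1 hi

end Pool.Agent.Results.MP_1efffb_co.ThreeRows
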